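import Pool.Agent.K3h83.IN.Stm

set_option autoImplicit false
set_option linter.style.haveILetI false

open scoped BigOperators Classical

noncomputable section

namespace Pool.Agent.K3h40.IN

open Pool.Agent.Helper884 Pool.Agent.K3h3.KB Pool.Agent.K3h3.MK
open Pool.Agent.H254R3.IN (IsIrr mem_Irr)
open IC (Irr)

/-- the characters of degree prime to `p` satisfying `F` -/
abbrev XF (p : ℕ) (G : Type) [Group G] (F : (G → ℂ) → Prop) : Type :=
  {χ : G → ℂ // IsIrr χ ∧ (ndeg χ : ZMod p) ≠ 0 ∧ F χ}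

section

variable (p : ℕ) [Fact p.Prime] {G : Type} [Group G] (F : (G → ℂ) → Prop)

/-- the class of the degree -/
def kapF (χ : XF p G F) : (ZMod p)ˣ := (Units.mk0 (ndeg χ.1 : ZMod p) χ.2.2.1) ^ 2

theorem finXF [Finite G] : Finite (XF p G F) := by
  haveI := Fintype.ofFinite G
  have h : {χ : G → ℂ | IsIrr χ}.Finite := IC.irr_finite
  exact (h.subset fun χ (hχ : IsIrr χ ∧ (ndeg χ : ZMod p) ≠ 0 ∧ F χ) => hχ.1).to_subtype

theorem sum_cl [Fintype G] [Fintype (XF p G F)] :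
    ∑ χ ∈ (Irr G).filter F, cl p (ndeg χ) =
      ∑ χ : XF p G F, MonoidAlgebra.single (kapF p F χ) (1 : ℤ) := by
  rw [← Finset.sum_filter_add_sum_filter_not ((Irr G).filter F) fun χ => (ndeg χ : ZMod p) = 0]
  have h1 : ∑ χ ∈ ((Irr G).filter F).filter (fun χ => (ndeg χ : ZMod p) = 0), cl p (ndeg χ) = 0 := by
    refine Finset.sum_eq_zero fun χ hχ => ?_
    have h := (Finset.mem_filter.mp hχ).2
    change cls p _ = 0
    unfold cls
    rw [dif_pos h]
  rw [h1, zero_add]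
  symm
  refine Finset.sum_bij (fun χ _ => χ.1) ?_ ?_ ?_ ?_
  · intro χ _
    exact Finset.mem_filter.mpr ⟨Finset.mem_filter.mpr ⟨mem_Irr.mpr χ.2.1, χ.2.2.2⟩, χ.2.2.1⟩
  · intro χ _ χ' _ h
    exact Subtype.ext h
  · intro χ hχ
    rw [Finset.mem_filter, Finset.mem_filter, mem_Irr] at hχ
    exact ⟨⟨χ, hχ.1.1, hχ.2, hχ.1.2⟩, Finset.mem_univ _, rfl⟩
  · intro χ _
    rw [cl_apply p χ.2.2.1]
    rfl

theorem coeff_F [Fintype G] (v : (ZMod p)ˣ) :
    (∑ χ ∈ (Irr G).filter F, cl p (ndeg χ)).coeff v = Nat.card {χ : XF p G F // kapF p F χ = v} := by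
  haveI := finXF p F (G := G)
  haveI := Fintype.ofFinite (XF p G F)
  rw [sum_cl, MonoidAlgebra.coeff_sum, Finsupp.finsetSum_apply]
  simp_rw [MonoidAlgebra.coeff_single, Finsupp.single_apply]
  rw [Finset.sum_ite, Finset.sum_const_zero, add_zero, Finset.sum_const, nsmul_eq_mul, mul_one,
    Nat.card_eq_fintype_card, Fintype.card_subtype]

end

theorem t_S13 : Pool.Agent.K3h83.IN.S13 := by
  intro p _ G H _ _ _ _ F₁ F₂ h
  haveI := finXF p F₁ (G := G)
  haveI := finXF p F₂ (G := H)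
  have h1 : ∀ v : (ZMod p)ˣ, Nonempty ({χ : XF p G F₁ // kapF p F₁ χ = v} ≃
      {χ : XF p H F₂ // kapF p F₂ χ = v}) := by
    intro v
    have h2 := coeff_F p F₁ (G := G) v
    rw [h, coeff_F p F₂ (G := H) v] at h2
    have h3 : Nat.card {χ : XF p H F₂ // kapF p F₂ χ = v} =
        Nat.card {χ : XF p G F₁ // kapF p F₁ χ = v} := by
      exact_mod_cast h2
    exact Finite.card_eq.mp h3.symm
  let E := fun v => (h1 v).some
  refine ⟨(Equiv.sigmaFiberEquiv (kapF p F₁)).symm.trans ((Equiv.sigmaCongrRight E).trans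
    (Equiv.sigmaFiberEquiv (kapF p F₂))), fun χ => ?_⟩
  have h2 := (E (kapF p F₁ χ) ⟨χ, rfl⟩).2
  have h3 := congrArg Units.val h2
  exact h3.symm

end Pool.Agent.K3h40.IN
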