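import Pool.Agent.K3h83.IN.Stm

set_option autoImplicit false
set_option linter.style.haveILetI false

open scoped BigOperators Classical

noncomputable section

namespace Pool.Agent.K3h40.IN

theorem sylow_quot (p : ℕ) [Fact p.Prime] (G Q : Type) [Group G] [Finite G] [Group Q]
    (r : G →* Q) (hr : Function.Surjective r) (P : Sylow p Q) :
    ∃ P' : Sylow p G, (P' : Subgroup G).map r = P := by
  haveI : Finite Q := Finite.of_surjective r hr
  obtain ⟨P', rfl⟩ := Sylow.mapSurjective_surjective hr p P
  exact ⟨P', rfl⟩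

theorem norm_quot (p : ℕ) [Fact p.Prime] (G Q : Type) [Group G] [Finite G] [Group Q]
    (r : G →* Q) (hr : Function.Surjective r) (P : Sylow p G) :
    (Subgroup.normalizer ((((P : Subgroup G).map r : Subgroup Q)) : Set Q)).comap r =
      r.ker ⊔ Subgroup.normalizer ((P : Subgroup G) : Set G) := by
  have hN : ∀ g : G, g ∈ Subgroup.normalizer ((P : Subgroup G) : Set G) ↔ ∀ h, h ∈ P ↔ g * h * g⁻¹ ∈ P := fun g =>
    Subgroup.mem_normalizer_iff
  set M : Subgroup G := ((P : Subgroup G).map r).comap r with hM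
  have hMe : M = (P : Subgroup G) ⊔ r.ker := Subgroup.comap_map_eq r _
  have hPM : (P : Subgroup G) ≤ M := Subgroup.le_comap_map r _
  apply le_antisymm
  · intro x hx
    have hx1 : ∀ h, h ∈ (P : Subgroup G).map r ↔ r x * h * (r x)⁻¹ ∈ (P : Subgroup G).map r :=
      Subgroup.mem_normalizer_iff.mp hx
    have hxM : ((x • P : Sylow p G) : Subgroup G) ≤ M := by
      intro y hy
      rw [Sylow.coe_subgroup_smul, Subgroup.mem_smul_pointwise_iff_exists] at hy
      obtain ⟨z, hz, rfl⟩ := hy
      rw [MulAut.smul_def, MulAut.conj_apply, hM, Subgroup.mem_comap, map_mul, map_mul, map_inv]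
      exact (hx1 (r z)).mp (Subgroup.mem_map_of_mem r hz)
    obtain ⟨m, hm⟩ := MulAction.exists_smul_eq M (P.subtype hPM) ((x • P).subtype hxM)
    rw [Sylow.smul_subtype] at hm
    have h1 : (m : G) • P = x • P := Sylow.subtype_injective hm
    have h2 : (m : G)⁻¹ * x ∈ Subgroup.normalizer ((P : Subgroup G) : Set G) := by
      have h3 : ((m : G)⁻¹ * x) • P = P := by
        rw [mul_smul, ← h1, inv_smul_smul]
      exact Sylow.smul_eq_iff_mem_normalizer.mp h3
    have h4 : (m : G) ∈ r.ker ⊔ Subgroup.normalizer ((P : Subgroup G) : Set G) := by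
      have h5 : M ≤ r.ker ⊔ Subgroup.normalizer ((P : Subgroup G) : Set G) := by
        rw [hMe]
        exact sup_le (Subgroup.le_normalizer.trans le_sup_right) le_sup_left
      exact h5 m.2
    have h5 : x = m * ((m : G)⁻¹ * x) := by group
    rw [h5]
    exact Subgroup.mul_mem _ h4 (Subgroup.mem_sup_right h2)
  · refine sup_le ?_ ?_
    · intro k hk
      rw [Subgroup.mem_comap, MonoidHom.mem_ker.mp hk]
      exact Subgroup.one_mem _
    · intro k hk
      have hk1 := (hN k).mp hk
      rw [Subgroup.mem_comap, Subgroup.mem_normalizer_iff]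
      intro h
      constructor
      · rintro ⟨y, hy, rfl⟩
        refine ⟨k * y * k⁻¹, (hk1 y).mp hy, ?_⟩
        rw [map_mul, map_mul, map_inv]
      · rintro ⟨y, hy, hyh⟩
        refine ⟨k⁻¹ * y * k, ?_, ?_⟩
        · refine (hk1 _).mpr ?_
          have h3 : k * (k⁻¹ * y * k) * k⁻¹ = y := by group
          rw [h3]
          exact hy
        · rw [map_mul, map_mul, map_inv, hyh]
          group


theorem t_S5a : Pool.Agent.K3h83.IN.S5a := by
  intro p _ G Q _ _ _ r hr P
  exact norm_quot p G Q r hr P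

theorem t_S5c : Pool.Agent.K3h83.IN.S5c := by
  intro p _ G Q _ _ _ r hr P
  exact sylow_quot p G Q r hr P

end Pool.Agent.K3h40.IN
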