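import Pool.Agent.K3h83.IN.Stm

set_option autoImplicit false
set_option linter.style.haveILetI false

open scoped BigOperators Classical

noncomputable section

namespace Pool.Agent.K3h40.IN

/-- an abelian normal `p'`-subgroup `A` of `G = A N_G(P)` has a subgroup, normal in `G`, that is a
complement of `N_G(P)` and has no nontrivial `P`-invariant linear character -/
theorem abel_compl (p : ℕ) [Fact p.Prime] (G : Type) [Group G] [Finite G] (P : Subgroup G)
    (hP : IsPGroup p P) (A : Subgroup G) (hA : A.Normal) (hcomm : ∀ a ∈ A, ∀ b ∈ A, a * b = b * a)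
    (hpA : ¬ p ∣ Nat.card A) (hAN : A ⊔ Subgroup.normalizer (P : Set G) = ⊤) :
    ∃ B : Subgroup G, B.Normal ∧ B ≤ A ∧ B ⊓ Subgroup.normalizer (P : Set G) = ⊥ ∧
      B ⊔ Subgroup.normalizer (P : Set G) = ⊤ ∧
      ∀ lam : B →* ℂˣ, (∀ x ∈ P, ∀ b b' : B, x * b * x⁻¹ = b' → lam b' = lam b) → lam = 1 := by
  haveI := hA
  haveI : Fintype P := Fintype.ofFinite _
  haveI : Fintype A := Fintype.ofFinite _
  letI : CommGroup A :=
    { (inferInstance : Group A) with mul_comm := fun a b => Subtype.ext (hcomm a a.2 b b.2) }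
  have hN : ∀ g : G, g ∈ Subgroup.normalizer (P : Set G) ↔ ∀ h, h ∈ P ↔ g * h * g⁻¹ ∈ P := fun g =>
    Subgroup.mem_normalizer_iff
  set m : ℕ := Nat.card P with hm
  have hmF : Fintype.card P = m := by rw [hm, Nat.card_eq_fintype_card]
  have hcop : Nat.Coprime m (Nat.card A) := by
    obtain ⟨k, hk⟩ := IsPGroup.iff_card.mp hP
    rw [hm, hk]
    exact Nat.Coprime.pow_left _ ((Nat.Prime.coprime_iff_not_dvd Fact.out).mpr hpA)
  let c : G →* MulAut A := MulAut.conjNormal
  have hc : ∀ (g : G) (a : A), ((c g a : A) : G) = g * a * g⁻¹ := fun g a =>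
    MulAut.conjNormal_apply g a
  let n : A →* A :=
    { toFun := fun a => ∏ x : P, c (x : G) a
      map_one' := by simp
      map_mul' := by
        intro a b
        rw [← Finset.prod_mul_distrib]
        exact Finset.prod_congr rfl fun x _ => map_mul _ _ _ }
  have hn : ∀ a, n a = ∏ x : P, c (x : G) a := fun a => rfl
  -- equivariance
  have hequi : ∀ g : G, g ∈ Subgroup.normalizer (P : Set G) → ∀ a, n (c g a) = c g (n a) := by
    intro g hg a
    rw [hn, hn, map_prod]
    let e : P ≃ P :=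
      { toFun := fun y => ⟨g * y * g⁻¹, ((hN g).mp hg y).mp y.2⟩
        invFun := fun x => ⟨g⁻¹ * x * g, ((hN g).mp hg _).mpr (by
          have h1 : g * (g⁻¹ * (x : G) * g) * g⁻¹ = x := by group
          rw [h1]
          exact x.2)⟩
        left_inv := fun y => Subtype.ext (by change g⁻¹ * (g * (y : G) * g⁻¹) * g = y; group)
        right_inv := fun x => Subtype.ext (by change g * (g⁻¹ * (x : G) * g) * g⁻¹ = x; group) }
    symm
    refine Fintype.prod_equiv e _ _ fun y => ?_
    change c g (c (y : G) a) = c (g * (y : G) * g⁻¹) (c g a)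
    rw [← MulAut.mul_apply, ← MulAut.mul_apply, ← map_mul, ← map_mul]
    congr 2
    group
  have hPN : ∀ x ∈ P, x ∈ Subgroup.normalizer (P : Set G) := fun x hx =>
    Subgroup.le_normalizer hx
  have hfix : ∀ x ∈ P, ∀ a, c x (n a) = n a := by
    intro x hx a
    rw [hn, map_prod]
    refine Fintype.prod_equiv (Equiv.mulLeft (⟨x, hx⟩ : P)) _ _ fun y => ?_
    change c x (c (y : G) a) = c (x * (y : G)) a
    rw [← MulAut.mul_apply, ← map_mul]
  have hpow : ∀ d : A, (∀ x ∈ P, c x d = d) → n d = d ^ m := by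
    intro d hd
    have h1 : ∀ x ∈ (Finset.univ : Finset P), c (x : G) d = d := fun x _ => hd x x.2
    rw [hn, Finset.prod_congr rfl h1, Finset.prod_const, Finset.card_univ, hmF]
  have hcopA : ∀ a : A, a ^ m = 1 → a = 1 := by
    intro a ha
    have h1 : a ^ Nat.card A = 1 := pow_card_eq_one'
    have h2 := pow_gcd_eq_one.mpr ⟨ha, h1⟩
    rwa [Nat.Coprime.gcd_eq_one hcop, pow_one] at h2
  -- the subgroup
  have hmem : ∀ g : G, g ∈ n.ker.map A.subtype ↔ ∃ h : g ∈ A, n ⟨g, h⟩ = 1 := by
    intro g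
    constructor
    · rintro ⟨a, ha, rfl⟩
      exact ⟨a.2, ha⟩
    · rintro ⟨h, hh⟩
      exact ⟨⟨g, h⟩, hh, rfl⟩
  have hBA : n.ker.map A.subtype ≤ A := fun g hg => ((hmem g).mp hg).1
  have hBn : (n.ker.map A.subtype).Normal := by
    constructor
    intro b hb g
    have hg : g ∈ A ⊔ Subgroup.normalizer (P : Set G) := by
      rw [hAN]
      exact Subgroup.mem_top g
    obtain ⟨a, ha, k, hk, rfl⟩ := Subgroup.mem_sup_of_normal_left.mp hg
    obtain ⟨hb1, hb2⟩ := (hmem b).mp hb
    have h1 : k * b * k⁻¹ ∈ A := hA.conj_mem b hb1 k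
    have h2 : a * k * b * (a * k)⁻¹ = k * b * k⁻¹ := by
      have h3 : a * k * b * (a * k)⁻¹ = a * (k * b * k⁻¹) * a⁻¹ := by group
      rw [h3, hcomm a ha _ h1]
      group
    rw [h2, hmem]
    refine ⟨h1, ?_⟩
    have h4 : (⟨k * b * k⁻¹, h1⟩ : A) = c k ⟨b, hb1⟩ := Subtype.ext (hc k ⟨b, hb1⟩).symm
    rw [h4, hequi k hk, hb2, map_one]
  refine ⟨n.ker.map A.subtype, hBn, hBA, ?_, ?_, ?_⟩
  · rw [eq_bot_iff]
    rintro b ⟨hb, hbN⟩
    obtain ⟨hb1, hb2⟩ := (hmem b).mp hb
    rw [Subgroup.mem_bot]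
    have h1 : ∀ x ∈ P, c x ⟨b, hb1⟩ = ⟨b, hb1⟩ := by
      intro x hx
      apply Subtype.ext
      rw [hc]
      change x * b * x⁻¹ = b
      have h2 : b * x * b⁻¹ * x⁻¹ ∈ P := P.mul_mem (((hN b).mp hbN x).mp hx) (P.inv_mem hx)
      have h3 : b * x * b⁻¹ * x⁻¹ ∈ A := by
        have h4 : b * x * b⁻¹ * x⁻¹ = b * (x * b⁻¹ * x⁻¹) := by group
        rw [h4]
        exact A.mul_mem hb1 (hA.conj_mem _ (A.inv_mem hb1) x)
      have h5 : (b * x * b⁻¹ * x⁻¹) ^ m = 1 := by
        have h6 : (⟨b * x * b⁻¹ * x⁻¹, h2⟩ : P) ^ m = 1 := pow_card_eq_one'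
        exact congrArg Subtype.val h6
      have h7 : (⟨b * x * b⁻¹ * x⁻¹, h3⟩ : A) = 1 := hcopA _ (Subtype.ext h5)
      have h8 : b * x * b⁻¹ * x⁻¹ = 1 := congrArg Subtype.val h7
      have h9 : b * x = x * b := by
        have h10 : b * x * (x * b)⁻¹ = 1 := by
          rw [← h8]
          group
        exact mul_inv_eq_one.mp h10
      rw [← h9]
      group
    have h2 := hpow _ h1
    rw [hb2] at h2
    exact congrArg Subtype.val (hcopA _ h2.symm)
  · rw [eq_top_iff, ← hAN]
    refine sup_le ?_ le_sup_right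
    intro a ha
    set d : A := n ⟨a, ha⟩ with hd
    have hd1 : n d = d ^ m := hpow d fun x hx => hfix x hx _
    have hd2 : (d : G) ∈ Subgroup.normalizer (P : Set G) := by
      rw [hN]
      have h1 : ∀ x ∈ P, (d : G) * x * (d : G)⁻¹ = x := by
        intro x hx
        have h2 : x * (d : G) * x⁻¹ = d := by
          rw [← hc, hd, hfix x hx]
        have h3 : x * (d : G) = d * x := by
          rw [← mul_inv_eq_iff_eq_mul]
          exact h2
        rw [← h3]
        group
      intro x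
      constructor
      · intro hx
        rw [h1 x hx]
        exact hx
      · intro hx
        have h2 := h1 _ hx
        have h3 : (d : G) * x * (d : G)⁻¹ = x := by
          have h4 : (d : G) * ((d : G) * x * (d : G)⁻¹) * (d : G)⁻¹ = (d : G) * x * (d : G)⁻¹ := h2
          exact mul_left_cancel (mul_right_cancel h4)
        rw [← h3]
        exact hx
    have h1 : a ^ m * (d : G)⁻¹ ∈ n.ker.map A.subtype := by
      rw [hmem]
      refine ⟨A.mul_mem (A.pow_mem ha m) (A.inv_mem d.2), ?_⟩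
      have h2 : (⟨a ^ m * (d : G)⁻¹, A.mul_mem (A.pow_mem ha m) (A.inv_mem d.2)⟩ : A) =
        ⟨a, ha⟩ ^ m * d⁻¹ := rfl
      rw [h2, map_mul, map_pow, map_inv, hd1, ← hd, mul_inv_cancel]
    have h2 : a ^ m ∈ n.ker.map A.subtype ⊔ Subgroup.normalizer (P : Set G) := by
      have h3 : a ^ m = a ^ m * (d : G)⁻¹ * d := by group
      rw [h3]
      exact Subgroup.mul_mem _ (Subgroup.mem_sup_left h1) (Subgroup.mem_sup_right hd2)
    have h3 : m.Coprime (orderOf a) := by
      refine Nat.Coprime.coprime_dvd_right ?_ hcop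
      have h4 : orderOf (⟨a, ha⟩ : A) ∣ Nat.card A := orderOf_dvd_natCard _
      rwa [← Subgroup.orderOf_coe] at h4
    obtain ⟨u, hu⟩ := exists_pow_eq_self_of_coprime h3
    rw [← hu]
    exact Subgroup.pow_mem _ h2 u
  · intro lam hlam
    let e : n.ker ≃* n.ker.map A.subtype :=
      n.ker.equivMapOfInjective A.subtype A.subtype_injective
    have he : ∀ k : n.ker, ((e k : n.ker.map A.subtype) : G) = ((k : A) : G) := fun k => rfl
    apply MonoidHom.ext
    intro b
    obtain ⟨k, rfl⟩ := e.surjective b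
    change lam (e k) = 1
    have hk : ∀ x : P, c (x : G) (k : A) ∈ n.ker := by
      intro x
      rw [MonoidHom.mem_ker, hequi x (hPN x x.2), MonoidHom.mem_ker.mp k.2, map_one]
    have h1 : ∏ x : P, (⟨c (x : G) (k : A), hk x⟩ : n.ker) = 1 := by
      apply Subtype.ext
      rw [Subgroup.val_finsetProd]
      exact k.2
    have h2 : (lam (e k)) ^ m = 1 := by
      have h3 : ∀ x : P, lam (e ⟨c (x : G) (k : A), hk x⟩) = lam (e k) := by
        intro x
        refine hlam x x.2 (e k) _ ?_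
        rw [he, he]
        exact (hc x k).symm
      have h4 : lam (e (∏ x : P, (⟨c (x : G) (k : A), hk x⟩ : n.ker))) = (lam (e k)) ^ m := by
        have h5 : ∀ f : P → n.ker, lam (e (∏ x : P, f x)) = ∏ x : P, lam (e (f x)) := by
          intro f
          exact map_prod (lam.comp e.toMonoidHom) f Finset.univ
        rw [h5, Finset.prod_congr rfl fun x _ => h3 x, Finset.prod_const, Finset.card_univ, hmF]
      rw [← h4, h1, map_one, map_one]
    have h3 : (lam (e k)) ^ Nat.card A = 1 := by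
      have h4 : k ^ Nat.card A = 1 := by
        apply Subtype.ext
        exact pow_card_eq_one'
      rw [← map_pow, ← map_pow, h4, map_one, map_one]
    have h4 := pow_gcd_eq_one.mpr ⟨h2, h3⟩
    rwa [Nat.Coprime.gcd_eq_one hcop, pow_one] at h4


theorem t_S7a : Pool.Agent.K3h83.IN.S7a := by
  intro p _ G _ _ P A hA hcomm hpA hAN
  exact abel_compl p G P P.isPGroup' A hA hcomm hpA hAN

end Pool.Agent.K3h40.IN
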